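import Mathlib
import Pool.Agent.Helper58.PS.Defs
import Pool.Agent.Helper58.LT.Spacing

/-!
# Project PS3: definitions

`n = t * c₁ ⋯ c_{i+r}`, cluster primes `c_j ∈ [2^(β-κ), 2^(β+κ)]`, `t` squarefree and `2^κ`-smooth,
`l ≈ (2 i + 1) β` up to `κ`, `s + r = i + 1`, `2 ≤ s ≤ r`.  Resolution `N = 2^((2 i + 1) β)`.
-/

namespace Pool.Agent.Helper19.P3

open Finset Pool.Agent.Helper6.Lehmer Pool.Agent.Helper6.LehmerCount Pool.Agent.Helper58.LT

/-- the completely additive integer version of `N λ` -/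
noncomputable def psiS (N a : ℕ) : ℤ := a.factorization.sum fun p e => (e : ℤ) * psi N p

/-- the completely additive version of `λ` -/
noncomputable def lamS (a : ℕ) : ℝ := a.factorization.sum fun p e => (e : ℝ) * lam p

/-- the cluster primes -/
def PP (β κ : ℕ) : Finset ℕ := (Icc (2 ^ (β - κ)) (2 ^ (β + κ))).filter Nat.Prime

open scoped Classical in
/-- the squarefree `2^κ`-smooth numbers up to `2^M` -/
noncomputable def Sm (κ M : ℕ) : Finset ℕ :=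
  (Icc 1 (2 ^ M)).filter (fun m => Squarefree m ∧ ∀ p ∈ m.primeFactors, p ≤ 2 ^ κ)

open scoped Classical in
/-- first parts with cut prime `q` -/
noncomputable def Uq (κ β q : ℕ) : Finset ℕ :=
  (Sm κ (β + κ)).filter (fun u => q ∈ u.primeFactors ∧ (∀ p ∈ u.primeFactors, p ≤ q) ∧ 2 ^ β ≤ u ∧
    u < 2 ^ β * q)

open scoped Classical in
/-- second parts with cut prime `q` -/
noncomputable def Vq (κ M q : ℕ) : Finset ℕ :=
  (Sm κ M).filter (fun v => ∀ p ∈ v.primeFactors, q < p)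

open scoped Classical in
/-- all products `u v`, `u ∈ Uq κ β q`, `v ∈ Vq κ M q`, `q ≤ 2^κ` -/
noncomputable def Tall (κ β M : ℕ) : Finset ℕ :=
  (range (2 ^ κ + 1)).biUnion fun q => (Uq κ β q ×ˢ Vq κ M q).image fun z => z.1 * z.2

/-- the side conditions on the tolerance `κ` -/
structure Ok (i β κ : ℕ) : Prop where
  one : 1 ≤ κ
  om : ∀ m : ℕ, 1 ≤ m → m ≤ 2 ^ ((8 * i + 16) * β) → m.primeFactors.card ≤ κ
  po : (8 * i + 16) * β + 1 ≤ 2 ^ κ

/-- the class: `n = t * c₁ ⋯ c_{i+r}` -/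
def DataE (n κ i r β : ℕ) : Prop :=
  ∃ (t : ℕ) (c : Fin (i + r) → ℕ), n = t * ∏ j, c j ∧ (∀ p ∈ t.primeFactors, p ≤ 2 ^ κ) ∧
    (∀ j, c j ∈ PP β κ) ∧ Function.Injective c

/-- the critical class at the scale of the block `n ≤ 2^l`, largest prime factor about `2^b` -/
def critB3 (n l b : ℕ) (ε : ℝ) : Prop :=
  ∃ i : ℕ, 4 ≤ i ∧ |(l : ℝ) / b - (2 * i + 1)| < ε ∧
    i + 2 ≤ #(n.primeFactors.filter (fun q : ℕ => (2 : ℝ) ^ ((1 - ε) * b) ≤ (q : ℝ))) ∧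
    2 * #(n.primeFactors.filter (fun q : ℕ => (2 : ℝ) ^ ((1 - ε) * b) ≤ (q : ℝ))) ≤ 3 * i ∧
    ∀ q ∈ n.primeFactors, (2 : ℝ) ^ ((1 - ε) * b) ≤ (q : ℝ) ∨ (q : ℝ) < (2 : ℝ) ^ (ε * l)

end Pool.Agent.Helper19.P3
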