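import Mathlib
import Pool.Agent.Helper19.P3.Defs

/-!
# Project PS4: definitions of the cuts

A smooth number `t` is written as `a b d c` (increasing primes), `a, b, d` of size about `2^h`.
-/

namespace Pool.Agent.Helper19.P3

open Finset Pool.Agent.Helper6.Lehmer Pool.Agent.Helper6.LehmerCount Pool.Agent.Helper58.LT

open scoped Classical in
/-- pieces with largest prime `q`, all primes in `(y, q]`, size in `[2^h, 2^h q)` -/
noncomputable def Xq (κ h y q : ℕ) : Finset ℕ :=
  (Sm κ (h + κ)).filter (fun u => q ∈ u.primeFactors ∧ (∀ p ∈ u.primeFactors, y < p ∧ p ≤ q) ∧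
    2 ^ h ≤ u ∧ u < 2 ^ h * q)

open scoped Classical in
/-- last pieces: all primes above `q` -/
noncomputable def Cq (κ M q : ℕ) : Finset ℕ :=
  (Sm κ M).filter (fun v => ∀ p ∈ v.primeFactors, q < p)

open scoped Classical in
/-- one cut -/
noncomputable def cutS (κ h : ℕ) (R : ℕ → Finset ℕ) (y : ℕ) : Finset ℕ :=
  (range (2 ^ κ + 1)).biUnion fun q => (Xq κ h y q ×ˢ R q).image fun z => z.1 * z.2

/-- all products of three pieces and a last piece -/
noncomputable def Tall3 (κ h M : ℕ) : Finset ℕ := cutS κ h (cutS κ h (cutS κ h (Cq κ M))) 0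

/-- the triples of cut primes -/
def Q3 (κ : ℕ) : Finset (ℕ × ℕ × ℕ) :=
  range (2 ^ κ + 1) ×ˢ range (2 ^ κ + 1) ×ˢ range (2 ^ κ + 1)

/-- the three pieces for a triple of cut primes -/
noncomputable def X3 (κ h : ℕ) (q : ℕ × ℕ × ℕ) : Fin 3 → Finset ℕ
  | 0 => Xq κ h 0 q.1
  | 1 => Xq κ h q.1 q.2.1
  | 2 => Xq κ h q.2.1 q.2.2

end Pool.Agent.Helper19.P3
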