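import Mathlib
import Pool.Agent.Helper58.LT.Pos
import Pool.Agent.Helper58.LT.FourG
import Pool.Agent.Helper19.P3.Defs4
import Pool.Agent.Helper13.P3.Psi

/-!
# PS4: the number of solutions of one level
-/

set_option autoImplicit false

namespace Pool.Agent.Helper19.P3

open Finset Pool.Agent.Helper6.Lehmer Pool.Agent.Helper6.LehmerCount Pool.Agent.Helper58.LT

theorem lv_Sm_mono {κ M M' : ℕ} (h : M ≤ M') : Sm κ M ⊆ Sm κ M' := by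
  classical
  intro t ht
  unfold Sm at ht ⊢
  rw [mem_filter, mem_Icc] at ht ⊢
  exact ⟨⟨ht.1.1, ht.1.2.trans (Nat.pow_le_pow_right (by norm_num) h)⟩, ht.2⟩

theorem lv_Sm_le {κ M t : ℕ} (ht : t ∈ Sm κ M) : t ≠ 0 ∧ t ≤ 2 ^ M := by
  classical
  unfold Sm at ht
  rw [mem_filter, mem_Icc] at ht
  exact ⟨by omega, ht.1.2⟩

theorem lv_PP_le {β κ p : ℕ} (hp : p ∈ PP β κ) : p ≠ 0 ∧ p ≤ 2 ^ (β + κ) := by
  unfold PP at hp
  rw [mem_filter, mem_Icc] at hp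
  exact ⟨hp.2.ne_zero, hp.1.2⟩

/-- bounds of the values -/
theorem lv_val {N a M V : ℕ} (h0 : a ≠ 0) (h : a ≤ 2 ^ M) (hV : N * M ≤ V) :
    0 ≤ psiS N a ∧ psiS N a ≤ V := by
  refine ⟨psiS_nonneg N a, (psiS_le_nat h0 h).trans ?_⟩
  exact_mod_cast hV

theorem lv_sm {N M V m : ℕ} {P : Finset ℕ} (hP : ∀ p ∈ P, p ≠ 0 ∧ p ≤ 2 ^ M) (hV : N * M ≤ V)
    {x : Fin m → ℕ} (hx : x ∈ tup P m) : 0 ≤ sm' (psiS N) x ∧ sm' (psiS N) x ≤ m * V := by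
  unfold sm'
  have h1 : ∀ j, 0 ≤ psiS N (x j) ∧ psiS N (x j) ≤ V := fun j =>
    lv_val (hP _ (mem_tup.1 hx j)).1 (hP _ (mem_tup.1 hx j)).2 hV
  refine ⟨sum_nonneg fun j _ => (h1 j).1, ?_⟩
  refine (sum_le_sum fun j _ => (h1 j).2).trans ?_
  rw [sum_const, card_univ, Fintype.card_fin, nsmul_eq_mul]

theorem lv_cast_sm {MM N m : ℕ} (x : Fin m → ℕ) :
    sm' (fun a => ((psiS N a : ℤ) : ZMod MM)) x = ((sm' (psiS N) x : ℤ) : ZMod MM) := by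
  unfold sm'
  push_cast
  rfl

theorem lv_eq_of_cast {MM : ℕ} {a b : ℤ} (h : ((a : ℤ) : ZMod MM) = (b : ZMod MM))
    (hab : |a - b| < MM) : a = b := by
  have h1 : ((a - b : ℤ) : ZMod MM) = 0 := by
    push_cast
    rw [h, sub_self]
  rw [ZMod.intCast_zmod_eq_zero_iff_dvd] at h1
  have h2 := Int.eq_zero_of_abs_lt_dvd h1 hab
  omega

end Pool.Agent.Helper19.P3
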