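import Mathlib
import Pool.Agent.Helper19.P3.Defs4
import Pool.Agent.Helper58.LT.Pos
import Pool.Agent.Helper58.LT.FourG
import Pool.Agent.Helper58.LT.Holder3

/-!
# PS4, leaf fourier_two
-/

set_option autoImplicit false

namespace Pool.Agent.Helper19.P3

open Finset Pool.Agent.Helper6.Lehmer Pool.Agent.Helper6.LehmerCount Pool.Agent.Helper58.LT
open Pool.Agent.Helper58.PS Pool.Agent.Helper6.PW

/-- a weighted character sum in mean square -/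
theorem mean_sq_le {G τ : Type*} [AddCommGroup G] [Fintype G] [DecidableEq G] (T : Finset τ)
    (F : τ → G) (a : τ → ℂ) (A : ℝ) (hA : 0 ≤ A) (ha : ∀ x ∈ T, ‖a x‖ ≤ A) :
    (Fintype.card G : ℝ)⁻¹ * ∑ χ : AddChar G ℂ, ‖∑ x ∈ T, a x * χ (F x)‖ ^ 2 ≤
      A ^ 2 * (en T F : ℝ) := by
  have hG : (0 : ℝ) < (Fintype.card G : ℝ) := Nat.cast_pos.2 Fintype.card_pos
  have h1 : ((∑ χ : AddChar G ℂ, ‖∑ x ∈ T, a x * χ (F x)‖ ^ 2 : ℝ) : ℂ) =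
      (Fintype.card G : ℂ) * ∑ z ∈ (T ×ˢ T).filter (fun z => F z.1 = F z.2),
        a z.1 * (starRingEnd ℂ) (a z.2) := by
    rw [Complex.ofReal_sum]
    have h2 : ∀ χ : AddChar G ℂ, ((‖∑ x ∈ T, a x * χ (F x)‖ ^ 2 : ℝ) : ℂ) =
        ∑ z ∈ T ×ˢ T, a z.1 * (starRingEnd ℂ) (a z.2) * χ (F z.1 - F z.2) := by
      intro χ
      rw [← Complex.normSq_eq_norm_sq, ← Complex.mul_conj, map_sum, sum_mul_sum, ← sum_product']
      refine sum_congr rfl fun z _ => ?_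
      rw [map_mul, sub_eq_add_neg, AddChar.map_add_eq_mul, AddChar.map_neg_eq_conj]
      ring
    simp only [h2]
    rw [sum_comm]
    simp only [← mul_sum, AddChar.sum_apply_eq_ite, sub_eq_zero]
    rw [sum_filter, mul_sum]
    refine sum_congr rfl fun z _ => ?_
    split_ifs
    · ring
    · simp
  have h3 : ∑ χ : AddChar G ℂ, ‖∑ x ∈ T, a x * χ (F x)‖ ^ 2 ≤
      (Fintype.card G : ℝ) * (A ^ 2 * (en T F : ℝ)) := by
    have h4 : ∑ χ : AddChar G ℂ, ‖∑ x ∈ T, a x * χ (F x)‖ ^ 2 =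
        ‖((∑ χ : AddChar G ℂ, ‖∑ x ∈ T, a x * χ (F x)‖ ^ 2 : ℝ) : ℂ)‖ := by
      rw [Complex.norm_real, Real.norm_of_nonneg]
      exact sum_nonneg fun χ _ => by positivity
    rw [h4, h1, norm_mul, Complex.norm_natCast]
    refine mul_le_mul_of_nonneg_left ?_ hG.le
    refine (norm_sum_le _ _).trans ?_
    have h5 : ∀ z ∈ (T ×ˢ T).filter (fun z => F z.1 = F z.2),
        ‖a z.1 * (starRingEnd ℂ) (a z.2)‖ ≤ A ^ 2 := by
      intro z hz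
      rw [mem_filter, mem_product] at hz
      rw [norm_mul, RCLike.norm_conj, sq]
      exact mul_le_mul (ha _ hz.1.1) (ha _ hz.1.2) (norm_nonneg _) hA
    refine (sum_le_card_nsmul _ _ _ h5).trans ?_
    rw [nsmul_eq_mul, mul_comm]
    exact le_refl _
  rw [inv_mul_le_iff₀ hG]
  exact h3

private theorem tw_amgm (x : Fin 3 → ℝ) (hx : ∀ j, 0 ≤ x j) :
    ∏ j, x j ≤ 1 / 3 * ∑ j, x j ^ 3 := by
  rw [Fin.prod_univ_three, Fin.sum_univ_three]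
  have h0 := hx 0
  have h1 := hx 1
  have h2 := hx 2
  have h3 : 0 ≤ (x 0 + x 1 + x 2) * ((x 0 - x 1) ^ 2 + (x 1 - x 2) ^ 2 + (x 2 - x 0) ^ 2) :=
    mul_nonneg (by linarith) (by positivity)
  nlinarith

private theorem tw_pow {x : ℝ} (hx : 0 ≤ x) (n : ℕ) (c : ℝ) :
    (x ^ n) ^ c = x ^ ((n : ℝ) * c) := by
  rw [← Real.rpow_natCast, ← Real.rpow_mul hx]

private theorem tw_split {L X Z S : ℝ} (hL : 0 ≤ L) (hX : 0 ≤ X) (hZ : 0 ≤ Z) (hS : 0 ≤ S)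
    (r : ℕ) (hr : 1 ≤ r) :
    L * X ^ 3 * Z * S ^ (2 * (r : ℝ) - 1 / 2) =
      (L ^ 2 * X ^ 4 * S ^ (2 * (r - 1))) ^ ((1 : ℝ) / 2) *
      (Z ^ 2 * S ^ (2 * (r + 1))) ^ ((1 : ℝ) / 4) *
      (Z ^ 2 * X ^ 4 * S ^ (2 * r)) ^ ((1 : ℝ) / 4) := by
  have hrr : (1 : ℝ) ≤ r := by exact_mod_cast hr
  rcases hS.eq_or_lt with h0 | h0
  · subst h0
    have e1 : (0 : ℝ) ^ (2 * (r : ℝ) - 1 / 2) = 0 := Real.zero_rpow (by linarith)
    have e2 : (0 : ℝ) ^ (2 * (r + 1)) = 0 := zero_pow (by omega)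
    rw [e1, e2, mul_zero, mul_zero, Real.zero_rpow (by norm_num), mul_zero, zero_mul]
  · rw [Real.mul_rpow (by positivity) (by positivity), Real.mul_rpow (by positivity) (by positivity),
      Real.mul_rpow (by positivity) (by positivity), Real.mul_rpow (by positivity) (by positivity),
      Real.mul_rpow (by positivity) (by positivity), tw_pow hL, tw_pow hX, tw_pow hS, tw_pow hZ,
      tw_pow hS, tw_pow hX, tw_pow hS]
    have a1 : ((2 : ℕ) : ℝ) * (1 / 2) = 1 := by norm_num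
    have a2 : ((4 : ℕ) : ℝ) * (1 / 2) = 2 := by norm_num
    have a3 : ((2 : ℕ) : ℝ) * (1 / 4) = 1 / 2 := by norm_num
    have a4 : ((4 : ℕ) : ℝ) * (1 / 4) = 1 := by norm_num
    rw [a1, a2, a3, a4, Real.rpow_one, Real.rpow_one]
    have b1 : Z ^ ((1 : ℝ) / 2) * Z ^ ((1 : ℝ) / 2) = Z := by
      rw [← Real.rpow_add_of_nonneg hZ (by norm_num) (by norm_num)]
      norm_num
    have b2 : X ^ (2 : ℝ) = X ^ 2 := by
      rw [← Real.rpow_natCast]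
      norm_num
    have b3 : S ^ (2 * (r : ℝ) - 1 / 2) = S ^ (((2 * (r - 1) : ℕ) : ℝ) * (1 / 2)) *
        S ^ (((2 * (r + 1) : ℕ) : ℝ) * (1 / 4)) * S ^ (((2 * r : ℕ) : ℝ) * (1 / 4)) := by
      rw [← Real.rpow_add h0, ← Real.rpow_add h0]
      congr 1
      have : ((r - 1 : ℕ) : ℝ) = r - 1 := by
        rw [Nat.cast_sub hr, Nat.cast_one]
      push_cast
      rw [this]
      ring
    rw [b3, b2]
    calc L * X ^ 3 * Z * (S ^ (((2 * (r - 1) : ℕ) : ℝ) * (1 / 2)) *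
          S ^ (((2 * (r + 1) : ℕ) : ℝ) * (1 / 4)) * S ^ (((2 * r : ℕ) : ℝ) * (1 / 4)))
        = L * X ^ 3 * (Z ^ ((1 : ℝ) / 2) * Z ^ ((1 : ℝ) / 2)) *
          (S ^ (((2 * (r - 1) : ℕ) : ℝ) * (1 / 2)) *
          S ^ (((2 * (r + 1) : ℕ) : ℝ) * (1 / 4)) * S ^ (((2 * r : ℕ) : ℝ) * (1 / 4))) := by
          rw [b1]
      _ = _ := by ring

private theorem tw_norm {G : Type*} [AddCommGroup G] [Finite G] (χ : AddChar G ℂ) (g : G) :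
    ‖χ g‖ = 1 := AddChar.norm_apply χ g

/-- `L X² S^m` as a weighted sum -/
private theorem tw_four {G : Type*} [AddCommGroup G] [Fintype G] [DecidableEq G]
    (f : ℕ → G) (T X P : Finset ℕ) (c : ℕ → ℂ) (m : ℕ) (η χ : AddChar G ℂ) :
    (∑ t ∈ T, c t * χ (f t)) * (Sf X f (η * χ)) ^ 2 * (Sf P f χ) ^ m =
      ∑ z ∈ T ×ˢ X ×ˢ X ×ˢ tup P m, (c z.1 * η (f z.2.1) * η (f z.2.2.1)) *
        χ (f z.1 + f z.2.1 + f z.2.2.1 + sm' f z.2.2.2) := by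
  rw [← Sf_tup P f m χ, sq]
  unfold Sf
  rw [sum_mul_sum, ← sum_product']
  have h1 : (∑ t ∈ T, c t * χ (f t)) * ∑ x ∈ X ×ˢ X, (η * χ) (f x.1) * (η * χ) (f x.2) =
      ∑ z ∈ T ×ˢ X ×ˢ X, (c z.1 * χ (f z.1)) * ((η * χ) (f z.2.1) * (η * χ) (f z.2.2)) := by
    rw [sum_mul_sum, ← sum_product']
  rw [h1, sum_mul_sum, ← sum_product']
  refine sum_bij' (fun z _ => (z.1.1, z.1.2.1, z.1.2.2, z.2))
    (fun z _ => ((z.1, z.2.1, z.2.2.1), z.2.2.2)) ?_ ?_ ?_ ?_ ?_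
  · intro z hz
    simp only [mem_product] at hz ⊢
    tauto
  · intro z hz
    simp only [mem_product] at hz ⊢
    tauto
  · intro z _
    rfl
  · intro z _
    rfl
  · intro z _
    simp only [AddChar.mul_apply, AddChar.map_add_eq_mul]
    ring

private theorem tw_two {G : Type*} [AddCommGroup G] [Fintype G] [DecidableEq G]
    (f : ℕ → G) (T P : Finset ℕ) (m : ℕ) (η χ : AddChar G ℂ) :
    (Sf T f (η * χ)) * (Sf P f χ) ^ m =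
      ∑ z ∈ T ×ˢ tup P m, η (f z.1) * χ (f z.1 + sm' f z.2) := by
  rw [← Sf_tup]
  unfold Sf
  rw [sum_mul_sum, ← sum_product']
  refine sum_congr rfl fun z _ => ?_
  simp only [AddChar.mul_apply, AddChar.map_add_eq_mul]
  ring

private theorem tw_B {B : ℝ} (hB : 0 ≤ B) :
    (4 * B) ^ ((1 : ℝ) / 2) * B ^ ((1 : ℝ) / 4) * B ^ ((1 : ℝ) / 4) = 2 * B := by
  rw [Real.mul_rpow (by norm_num) hB]
  have h1 : (4 : ℝ) ^ ((1 : ℝ) / 2) = 2 := by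
    have : (4 : ℝ) = (2 : ℝ) ^ (2 : ℝ) := by norm_num
    rw [this, ← Real.rpow_mul (by norm_num)]
    norm_num
  have h2 : B ^ ((1 : ℝ) / 2) * B ^ ((1 : ℝ) / 4) * B ^ ((1 : ℝ) / 4) = B := by
    rw [← Real.rpow_add_of_nonneg hB (by norm_num) (by norm_num),
      ← Real.rpow_add_of_nonneg hB (by norm_num) (by norm_num)]
    norm_num
  calc (4 : ℝ) ^ ((1 : ℝ) / 2) * B ^ ((1 : ℝ) / 2) * B ^ ((1 : ℝ) / 4) * B ^ ((1 : ℝ) / 4)
      = (4 : ℝ) ^ ((1 : ℝ) / 2) *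
        (B ^ ((1 : ℝ) / 2) * B ^ ((1 : ℝ) / 4) * B ^ ((1 : ℝ) / 4)) := by ring
    _ = 2 * B := by rw [h1, h2]

/-- `avg |L_w|^2 |S|^(2 r - 1/2)` -/
theorem fourier_two {G ι : Type*} [AddCommGroup G] [Fintype G] [DecidableEq G]
    (f : ℕ → G) (T P : Finset ℕ) (Q : Finset ι) (X : ι → Fin 3 → Finset ℕ) (Z : ι → Finset ℕ)
    (w : G → ℝ) (C : AddChar G ℂ → ℂ)
    (hC : ∑ η, ‖C η‖ ≤ 2) (hw : ∀ a, (w a : ℂ) = ∑ η, C η * η a) (hw0 : ∀ a, 0 ≤ w a)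
    (hw2 : ∀ a, w a ≤ 2)
    (hcut : ∀ χ : AddChar G ℂ, ∑ t ∈ T, χ (f t) =
      ∑ q ∈ Q, (∏ j, ∑ x ∈ X q j, χ (f x)) * ∑ c ∈ Z q, χ (f c))
    (r : ℕ) (hr : 1 ≤ r) (B : ℝ)
    (h1 : ∀ q ∈ Q, ∀ j, (en ((T.filter fun t => w (f t) ≠ 0) ×ˢ X q j ×ˢ X q j ×ˢ tup P (r - 1))
      (fun z => f z.1 + f z.2.1 + f z.2.2.1 + sm' f z.2.2.2) : ℝ) ≤ B)
    (h2 : ∀ q ∈ Q, (en (Z q ×ˢ tup P (r + 1)) (fun z => f z.1 + sm' f z.2) : ℝ) ≤ B)
    (h3 : ∀ q ∈ Q, ∀ j, (en (Z q ×ˢ X q j ×ˢ X q j ×ˢ tup P r)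
      (fun z => f z.1 + f z.2.1 + f z.2.2.1 + sm' f z.2.2.2) : ℝ) ≤ B) :
    (Fintype.card G : ℝ)⁻¹ * ∑ χ : AddChar G ℂ, ‖∑ t ∈ T, (w (f t) : ℂ) * χ (f t)‖ ^ 2 *
      ‖Sf P f χ‖ ^ (2 * (r : ℝ) - 1 / 2) ≤ 4 * #Q * B := by
  classical
  have hG : (0 : ℝ) < (Fintype.card G : ℝ) := Nat.cast_pos.2 Fintype.card_pos
  set L : AddChar G ℂ → ℂ := fun χ => ∑ t ∈ T, (w (f t) : ℂ) * χ (f t) with hL
  have hLf : ∀ χ, L χ = ∑ t ∈ T.filter (fun t => w (f t) ≠ 0), (w (f t) : ℂ) * χ (f t) := by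
    intro χ
    rw [hL, sum_filter]
    refine sum_congr rfl fun t _ => ?_
    split_ifs with h
    · rfl
    · rw [not_not] at h
      rw [h]
      simp
  -- the expansion
  have hexp : ∀ χ, ‖L χ‖ ≤ ∑ η, ‖C η‖ * ∑ q ∈ Q, (1 / 3 * ∑ j, ‖Sf (X q j) f (η * χ)‖ ^ 3) *
      ‖Sf (Z q) f (η * χ)‖ := by
    intro χ
    have e1 : L χ = ∑ η, C η * ∑ t ∈ T, (η * χ) (f t) := by
      simp only [hL, hw, sum_mul, mul_sum]
      rw [sum_comm]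
      refine sum_congr rfl fun η _ => sum_congr rfl fun t _ => ?_
      rw [AddChar.mul_apply]
      ring
    rw [e1]
    refine (norm_sum_le _ _).trans (sum_le_sum fun η _ => ?_)
    rw [norm_mul]
    refine mul_le_mul_of_nonneg_left ?_ (norm_nonneg _)
    rw [hcut]
    refine (norm_sum_le _ _).trans (sum_le_sum fun q _ => ?_)
    rw [norm_mul, norm_prod]
    exact mul_le_mul_of_nonneg_right (tw_amgm _ fun j => norm_nonneg _) (norm_nonneg _)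
  -- the three averages
  have key : ∀ η : AddChar G ℂ, ∀ q ∈ Q, ∀ j, (Fintype.card G : ℝ)⁻¹ * ∑ χ : AddChar G ℂ,
      ‖L χ‖ * ‖Sf (X q j) f (η * χ)‖ ^ 3 * ‖Sf (Z q) f (η * χ)‖ *
        ‖Sf P f χ‖ ^ (2 * (r : ℝ) - 1 / 2) ≤ 2 * B := by
    intro η q hq j
    have hB0 : 0 ≤ B := le_trans (Nat.cast_nonneg _) (h2 q hq)
    have k1 : (Fintype.card G : ℝ)⁻¹ * ∑ χ : AddChar G ℂ, ‖L χ‖ ^ 2 *
        ‖Sf (X q j) f (η * χ)‖ ^ 4 * ‖Sf P f χ‖ ^ (2 * (r - 1)) ≤ 4 * B := by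
      have m1 := mean_sq_le ((T.filter fun t => w (f t) ≠ 0) ×ˢ X q j ×ˢ X q j ×ˢ tup P (r - 1))
        (fun z => f z.1 + f z.2.1 + f z.2.2.1 + sm' f z.2.2.2)
        (fun z => (w (f z.1) : ℂ) * η (f z.2.1) * η (f z.2.2.1)) 2 (by norm_num) (by
          intro z _
          rw [norm_mul, norm_mul, tw_norm, tw_norm, mul_one, mul_one, Complex.norm_real,
            Real.norm_of_nonneg (hw0 _)]
          exact hw2 _)
      have m2 := h1 q hq j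
      calc (Fintype.card G : ℝ)⁻¹ * ∑ χ : AddChar G ℂ, ‖L χ‖ ^ 2 *
            ‖Sf (X q j) f (η * χ)‖ ^ 4 * ‖Sf P f χ‖ ^ (2 * (r - 1))
          = (Fintype.card G : ℝ)⁻¹ * ∑ χ : AddChar G ℂ,
            ‖∑ z ∈ (T.filter fun t => w (f t) ≠ 0) ×ˢ X q j ×ˢ X q j ×ˢ tup P (r - 1),
              ((w (f z.1) : ℂ) * η (f z.2.1) * η (f z.2.2.1)) *
              χ (f z.1 + f z.2.1 + f z.2.2.1 + sm' f z.2.2.2)‖ ^ 2 := by
            congr 1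
            refine sum_congr rfl fun χ _ => ?_
            rw [← tw_four f _ _ _ (fun t => (w (f t) : ℂ)), hLf, norm_mul, norm_mul, norm_pow,
              norm_pow]
            ring
        _ ≤ 2 ^ 2 * (en ((T.filter fun t => w (f t) ≠ 0) ×ˢ X q j ×ˢ X q j ×ˢ tup P (r - 1))
            (fun z => f z.1 + f z.2.1 + f z.2.2.1 + sm' f z.2.2.2) : ℝ) := m1
        _ ≤ 4 * B := by linarith
    have k2 : (Fintype.card G : ℝ)⁻¹ * ∑ χ : AddChar G ℂ, ‖Sf (Z q) f (η * χ)‖ ^ 2 *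
        ‖Sf P f χ‖ ^ (2 * (r + 1)) ≤ B := by
      have m1 := mean_sq_le (Z q ×ˢ tup P (r + 1)) (fun z => f z.1 + sm' f z.2)
        (fun z => η (f z.1)) 1 (by norm_num) (by
          intro z _
          rw [tw_norm])
      have m2 := h2 q hq
      calc (Fintype.card G : ℝ)⁻¹ * ∑ χ : AddChar G ℂ, ‖Sf (Z q) f (η * χ)‖ ^ 2 *
            ‖Sf P f χ‖ ^ (2 * (r + 1))
          = (Fintype.card G : ℝ)⁻¹ * ∑ χ : AddChar G ℂ, ‖∑ z ∈ Z q ×ˢ tup P (r + 1),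
              η (f z.1) * χ (f z.1 + sm' f z.2)‖ ^ 2 := by
            congr 1
            refine sum_congr rfl fun χ _ => ?_
            rw [← tw_two, norm_mul, norm_pow]
            ring
        _ ≤ 1 ^ 2 * (en (Z q ×ˢ tup P (r + 1)) (fun z => f z.1 + sm' f z.2) : ℝ) := m1
        _ ≤ B := by linarith
    have k3 : (Fintype.card G : ℝ)⁻¹ * ∑ χ : AddChar G ℂ, ‖Sf (Z q) f (η * χ)‖ ^ 2 *
        ‖Sf (X q j) f (η * χ)‖ ^ 4 * ‖Sf P f χ‖ ^ (2 * r) ≤ B := by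
      have m1 := mean_sq_le (Z q ×ˢ X q j ×ˢ X q j ×ˢ tup P r)
        (fun z => f z.1 + f z.2.1 + f z.2.2.1 + sm' f z.2.2.2)
        (fun z => η (f z.1) * η (f z.2.1) * η (f z.2.2.1)) 1 (by norm_num) (by
          intro z _
          rw [norm_mul, norm_mul, tw_norm, tw_norm, tw_norm, mul_one, mul_one])
      have m2 := h3 q hq j
      calc (Fintype.card G : ℝ)⁻¹ * ∑ χ : AddChar G ℂ, ‖Sf (Z q) f (η * χ)‖ ^ 2 *
            ‖Sf (X q j) f (η * χ)‖ ^ 4 * ‖Sf P f χ‖ ^ (2 * r)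
          = (Fintype.card G : ℝ)⁻¹ * ∑ χ : AddChar G ℂ,
            ‖∑ z ∈ Z q ×ˢ X q j ×ˢ X q j ×ˢ tup P r,
              (η (f z.1) * η (f z.2.1) * η (f z.2.2.1)) *
              χ (f z.1 + f z.2.1 + f z.2.2.1 + sm' f z.2.2.2)‖ ^ 2 := by
            congr 1
            refine sum_congr rfl fun χ _ => ?_
            rw [← tw_four f _ _ _ (fun t => η (f t))]
            have e5 : ∑ t ∈ Z q, η (f t) * χ (f t) = Sf (Z q) f (η * χ) := by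
              unfold Sf
              exact sum_congr rfl fun t _ => by rw [AddChar.mul_apply]
            rw [e5, norm_mul, norm_mul, norm_pow, norm_pow]
            ring
        _ ≤ 1 ^ 2 * (en (Z q ×ˢ X q j ×ˢ X q j ×ˢ tup P r)
            (fun z => f z.1 + f z.2.1 + f z.2.2.1 + sm' f z.2.2.2) : ℝ) := m1
        _ ≤ B := by linarith
    have hsp : ∀ χ : AddChar G ℂ, ‖L χ‖ * ‖Sf (X q j) f (η * χ)‖ ^ 3 *
        ‖Sf (Z q) f (η * χ)‖ * ‖Sf P f χ‖ ^ (2 * (r : ℝ) - 1 / 2) =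
        (‖L χ‖ ^ 2 * ‖Sf (X q j) f (η * χ)‖ ^ 4 * ‖Sf P f χ‖ ^ (2 * (r - 1))) ^ ((1 : ℝ) / 2) *
        (‖Sf (Z q) f (η * χ)‖ ^ 2 * ‖Sf P f χ‖ ^ (2 * (r + 1))) ^ ((1 : ℝ) / 4) *
        (‖Sf (Z q) f (η * χ)‖ ^ 2 * ‖Sf (X q j) f (η * χ)‖ ^ 4 * ‖Sf P f χ‖ ^ (2 * r)) ^
          ((1 : ℝ) / 4) := fun χ =>
      tw_split (norm_nonneg _) (norm_nonneg _) (norm_nonneg _) (norm_nonneg _) r hr
    simp only [hsp]
    refine (holder3' univ (Fintype.card G : ℝ) hG _ _ _ (fun χ _ => by positivity)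
      (fun χ _ => by positivity) (fun χ _ => by positivity) (1 / 2) (1 / 4) (1 / 4)
      (by norm_num) (by norm_num) (by norm_num) (by norm_num)).trans ?_
    have p1 : (0 : ℝ) ≤ (Fintype.card G : ℝ)⁻¹ * ∑ χ : AddChar G ℂ, ‖L χ‖ ^ 2 *
        ‖Sf (X q j) f (η * χ)‖ ^ 4 * ‖Sf P f χ‖ ^ (2 * (r - 1)) := by positivity
    have p2 : (0 : ℝ) ≤ (Fintype.card G : ℝ)⁻¹ * ∑ χ : AddChar G ℂ, ‖Sf (Z q) f (η * χ)‖ ^ 2 *
        ‖Sf P f χ‖ ^ (2 * (r + 1)) := by positivity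
    have p3 : (0 : ℝ) ≤ (Fintype.card G : ℝ)⁻¹ * ∑ χ : AddChar G ℂ, ‖Sf (Z q) f (η * χ)‖ ^ 2 *
        ‖Sf (X q j) f (η * χ)‖ ^ 4 * ‖Sf P f χ‖ ^ (2 * r) := by positivity
    rw [← tw_B hB0]
    have r1 := Real.rpow_le_rpow p1 k1 (show (0 : ℝ) ≤ 1 / 2 by norm_num)
    have r2 := Real.rpow_le_rpow p2 k2 (show (0 : ℝ) ≤ 1 / 4 by norm_num)
    have r3 := Real.rpow_le_rpow p3 k3 (show (0 : ℝ) ≤ 1 / 4 by norm_num)
    exact mul_le_mul (mul_le_mul r1 r2 (Real.rpow_nonneg p2 _) (Real.rpow_nonneg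
      (by positivity) _)) r3 (Real.rpow_nonneg p3 _) (mul_nonneg (Real.rpow_nonneg
      (by positivity) _) (Real.rpow_nonneg hB0 _))
  -- summation
  have hQB : 0 ≤ (#Q : ℝ) * (2 * B) := by
    rcases Q.eq_empty_or_nonempty with h | ⟨q, hq⟩
    · rw [h]
      simp
    · have hB0 : 0 ≤ B := le_trans (Nat.cast_nonneg _) (h2 q hq)
      positivity
  have hpt : ∀ χ : AddChar G ℂ, ‖L χ‖ ^ 2 * ‖Sf P f χ‖ ^ (2 * (r : ℝ) - 1 / 2) ≤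
      ∑ η, ‖C η‖ * ∑ q ∈ Q, (1 / 3 * ∑ j : Fin 3, ‖L χ‖ * ‖Sf (X q j) f (η * χ)‖ ^ 3 *
        ‖Sf (Z q) f (η * χ)‖ * ‖Sf P f χ‖ ^ (2 * (r : ℝ) - 1 / 2)) := by
    intro χ
    have hS0 : 0 ≤ ‖Sf P f χ‖ ^ (2 * (r : ℝ) - 1 / 2) := Real.rpow_nonneg (norm_nonneg _) _
    calc ‖L χ‖ ^ 2 * ‖Sf P f χ‖ ^ (2 * (r : ℝ) - 1 / 2)
        = ‖L χ‖ * (‖L χ‖ * ‖Sf P f χ‖ ^ (2 * (r : ℝ) - 1 / 2)) := by ring
      _ ≤ (∑ η, ‖C η‖ * ∑ q ∈ Q, (1 / 3 * ∑ j, ‖Sf (X q j) f (η * χ)‖ ^ 3) *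
          ‖Sf (Z q) f (η * χ)‖) * (‖L χ‖ * ‖Sf P f χ‖ ^ (2 * (r : ℝ) - 1 / 2)) :=
          mul_le_mul_of_nonneg_right (hexp χ) (mul_nonneg (norm_nonneg _) hS0)
      _ = _ := by
          simp only [sum_mul, mul_sum]
          refine sum_congr rfl fun η _ => sum_congr rfl fun q _ => sum_congr rfl fun j _ => ?_
          ring
  calc (Fintype.card G : ℝ)⁻¹ * ∑ χ : AddChar G ℂ, ‖L χ‖ ^ 2 *
        ‖Sf P f χ‖ ^ (2 * (r : ℝ) - 1 / 2)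
      ≤ (Fintype.card G : ℝ)⁻¹ * ∑ χ : AddChar G ℂ, ∑ η, ‖C η‖ * ∑ q ∈ Q, (1 / 3 *
        ∑ j : Fin 3, ‖L χ‖ * ‖Sf (X q j) f (η * χ)‖ ^ 3 *
        ‖Sf (Z q) f (η * χ)‖ * ‖Sf P f χ‖ ^ (2 * (r : ℝ) - 1 / 2)) :=
        mul_le_mul_of_nonneg_left (sum_le_sum fun χ _ => hpt χ) (inv_nonneg.2 hG.le)
    _ = ∑ η, ‖C η‖ * ∑ q ∈ Q, (1 / 3 * ∑ j : Fin 3, ((Fintype.card G : ℝ)⁻¹ *
        ∑ χ : AddChar G ℂ, ‖L χ‖ * ‖Sf (X q j) f (η * χ)‖ ^ 3 *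
        ‖Sf (Z q) f (η * χ)‖ * ‖Sf P f χ‖ ^ (2 * (r : ℝ) - 1 / 2))) := by
        simp only [mul_sum]
        rw [sum_comm]
        refine sum_congr rfl fun η _ => ?_
        rw [sum_comm]
        refine sum_congr rfl fun q _ => ?_
        rw [sum_comm]
        refine sum_congr rfl fun j _ => sum_congr rfl fun χ _ => ?_
        ring
    _ ≤ ∑ η, ‖C η‖ * ∑ q ∈ Q, (1 / 3 * ∑ _j : Fin 3, 2 * B) := by
        refine sum_le_sum fun η _ => mul_le_mul_of_nonneg_left (sum_le_sum fun q hq => ?_)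
          (norm_nonneg _)
        exact mul_le_mul_of_nonneg_left (sum_le_sum fun j _ => key η q hq j) (by norm_num)
    _ = (∑ η, ‖C η‖) * ((#Q : ℝ) * (2 * B)) := by
        rw [← sum_mul]
        congr 1
        rw [sum_const, nsmul_eq_mul, sum_const, card_univ, Fintype.card_fin, nsmul_eq_mul]
        push_cast
        ring
    _ ≤ 2 * ((#Q : ℝ) * (2 * B)) := mul_le_mul_of_nonneg_right hC hQB
    _ = 4 * #Q * B := by ring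

end Pool.Agent.Helper19.P3
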