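import Mathlib
import Pool.Agent.Helper19.P3.LevelW
import Pool.Agent.Helper41.P3.Win
import Pool.Agent.Helper6.P3.Cut
import Pool.Agent.Helper19.P3.Two
import Pool.Agent.Helper10.P3.Core

/-!
# PS4: the count of one level, reduced to the integers
-/

set_option autoImplicit false

namespace Pool.Agent.Helper19.P3

open Finset Pool.Agent.Helper6.Lehmer Pool.Agent.Helper6.LehmerCount Pool.Agent.Helper58.LT

theorem lv_abs {a b c : ℤ} (ha : 0 ≤ a) (ha' : a ≤ c) (hb : 0 ≤ b) (hb' : b ≤ c) :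
    |a - b| ≤ c := by
  rw [abs_le]
  constructor <;> linarith

/-- the number of coincidences modulo `MM` is the number over the integers -/
theorem lv_en {τ : Type*} {MM : ℕ} (T : Finset τ) (F : τ → ℤ) (f : τ → ZMod MM)
    (hf : ∀ x, f x = ((F x : ℤ) : ZMod MM)) (c : ℤ) (hF : ∀ x ∈ T, 0 ≤ F x ∧ F x ≤ c)
    (hc : c < MM) : en T f = en T F := by
  have h1 : f = fun x => ((F x : ℤ) : ZMod MM) := funext hf
  rw [h1]
  refine en_cast MM T F fun x hx y hy => ?_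
  exact lt_of_le_of_lt (lv_abs (hF x hx).1 (hF x hx).2 (hF y hy).1 (hF y hy).2) hc

theorem lv_smS {N V m : ℕ} {P : Finset ℕ} (hP : ∀ p ∈ P, psiS N p ≤ V)
    {x : Fin m → ℕ} (hx : x ∈ tup P m) : 0 ≤ sm' (psiS N) x ∧ sm' (psiS N) x ≤ m * V := by
  unfold sm'
  refine ⟨sum_nonneg fun j _ => psiS_nonneg N _, ?_⟩
  refine (sum_le_sum fun j _ => hP _ (mem_tup.1 hx j)).trans ?_
  rw [sum_const, card_univ, Fintype.card_fin, nsmul_eq_mul]

theorem level_core (N V β κ M i r K : ℕ) (hhb : 1 ≤ β / 2) (hr : 1 ≤ r) (hK : i < K)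
    (a₀ : ℤ) (h : ℕ) (hh : 1 ≤ h)
    (hT : ∀ t ∈ Tall3 κ (β / 2) M, psiS N t ≤ V)
    (hX : ∀ q ∈ Q3 κ, ∀ j, ∀ x ∈ X3 κ (β / 2) q j, psiS N x ≤ V)
    (hZ : ∀ q ∈ Q3 κ, ∀ c ∈ Cq κ M q.2.2, psiS N c ≤ V)
    (hP : ∀ p ∈ PP β κ, psiS N p ≤ V)
    (B J₁ J₂ : ℝ)
    (h1 : ∀ q ∈ Q3 κ, ∀ j, (en (((Tall3 κ (β / 2) M).filter fun t => |psiS N t - a₀| < 2 * h) ×ˢ
      X3 κ (β / 2) q j ×ˢ X3 κ (β / 2) q j ×ˢ tup (PP β κ) (r - 1))
      (fun z => psiS N z.1 + psiS N z.2.1 + psiS N z.2.2.1 + sm' (psiS N) z.2.2.2) : ℝ) ≤ B)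
    (h2 : ∀ q ∈ Q3 κ, (en (Cq κ M q.2.2 ×ˢ tup (PP β κ) (r + 1))
      (fun z => psiS N z.1 + sm' (psiS N) z.2) : ℝ) ≤ B)
    (h3 : ∀ q ∈ Q3 κ, ∀ j, (en (Cq κ M q.2.2 ×ˢ X3 κ (β / 2) q j ×ˢ X3 κ (β / 2) q j ×ˢ
      tup (PP β κ) r)
      (fun z => psiS N z.1 + psiS N z.2.1 + psiS N z.2.2.1 + sm' (psiS N) z.2.2.2) : ℝ) ≤ B)
    (hJ₁ : (Js (PP β κ) (psiS N) i : ℝ) ≤ J₁) (hJ₂ : (Js (PP β κ) (psiS N) K : ℝ) ≤ J₂)
    (T₀ : Finset ℕ) (hT₀ : T₀ ⊆ Tall3 κ (β / 2) M) (hT₁ : ∀ t ∈ T₀, |psiS N t - a₀| ≤ h)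
    (u : ℤ) :
    (#{z ∈ T₀ ×ˢ tup (PP β κ) (i + r) | psiS N z.1 + sm' (psiS N) z.2 = u} : ℝ) ≤
      (4 * #(Q3 κ) * B) ^ ((1 : ℝ) / 2) *
        J₁ ^ ((1 : ℝ) / 2 * (1 - 1 / (4 * ((K : ℝ) - i)))) *
        J₂ ^ ((1 : ℝ) / 2 * (1 / (4 * ((K : ℝ) - i)))) := by
  classical
  set MM : ℕ := 8 * h + a₀.natAbs + (K + i + r + 10) * V + 1 with hMM
  have : NeZero MM := ⟨by omega⟩
  have hMz : (MM : ℤ) = 8 * h + |a₀| + (K + i + r + 10) * V + 1 := by
    rw [hMM]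
    push_cast
    rfl
  have hV0 : (0 : ℤ) ≤ V := Int.natCast_nonneg V
  have hval : ∀ m : ℕ, m ≤ K + i + r + 10 → (m : ℤ) * V < MM := by
    intro m hm
    have : (m : ℤ) * V ≤ ((K + i + r + 10 : ℕ) : ℤ) * V :=
      mul_le_mul_of_nonneg_right (by exact_mod_cast hm) hV0
    push_cast at this
    rw [hMz]
    have h0 := abs_nonneg a₀
    have h4 : (0 : ℤ) ≤ h := Int.natCast_nonneg h
    linarith
  obtain ⟨w, C, hC, hw, hw0, hw2, hw1, hwz⟩ := window_fun MM h hh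
    (by omega) a₀
  set f : ℕ → ZMod MM := fun t => ((psiS N t : ℤ) : ZMod MM) with hf
  -- the support of the window
  have hfil : ((Tall3 κ (β / 2) M).filter fun t => w (f t) ≠ 0) ⊆
      (Tall3 κ (β / 2) M).filter fun t => |psiS N t - a₀| < 2 * h := by
    intro t ht
    rw [mem_filter] at ht ⊢
    refine ⟨ht.1, ?_⟩
    obtain ⟨m, hm, hm'⟩ := hwz _ ht.2
    have e1 : |psiS N t - m| < MM := by
      have e2 : |psiS N t - m| ≤ |psiS N t| + (|m - a₀| + |a₀|) := by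
        have e3 : psiS N t - m = psiS N t - ((m - a₀) + a₀) := by ring
        rw [e3]
        exact (abs_sub _ _).trans (by linarith [abs_add_le (m - a₀) a₀])
      have e4 : |psiS N t| ≤ V := by
        rw [abs_of_nonneg (psiS_nonneg N t)]
        exact hT t ht.1
      have e5 : (1 : ℤ) * V ≤ (K + i + r + 10) * V := by
        refine mul_le_mul_of_nonneg_right ?_ hV0
        have : (0 : ℤ) ≤ K + i + r := by positivity
        linarith
      rw [hMz]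
      have h4 : (0 : ℤ) ≤ h := Int.natCast_nonneg h
      linarith
    rw [lv_eq_of_cast hm' e1]
    exact hm
  -- the cut
  have hcut : ∀ χ : AddChar (ZMod MM) ℂ, ∑ t ∈ Tall3 κ (β / 2) M, χ (f t) =
      ∑ q ∈ Q3 κ, (∏ j, ∑ x ∈ X3 κ (β / 2) q j, χ (f x)) * ∑ c ∈ Cq κ M q.2.2, χ (f c) := by
    intro χ
    refine cut3_sum hhb (fun t => χ (f t)) fun a b ha hb => ?_
    show χ (f (a * b)) = χ (f a) * χ (f b)
    rw [← AddChar.map_add_eq_mul]
    congr 1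
    simp only [hf]
    rw [psiS_mul ha hb]
    push_cast
    rfl
  have hJs : ∀ m : ℕ, m ≤ K + i + r + 10 → Js (PP β κ) f m = Js (PP β κ) (psiS N) m := by
    intro m hm
    unfold Js
    exact lv_en _ _ _ (fun x => lv_cast_sm x) (m * V) (fun x hx => lv_smS hP hx) (hval m hm)
  have hf4 : ∀ (m : ℕ) (z : ℕ × ℕ × ℕ × (Fin m → ℕ)),
      f z.1 + f z.2.1 + f z.2.2.1 + sm' f z.2.2.2 =
      ((psiS N z.1 + psiS N z.2.1 + psiS N z.2.2.1 + sm' (psiS N) z.2.2.2 : ℤ) : ZMod MM) := by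
    intro m z
    simp only [hf]
    rw [lv_cast_sm]
    push_cast
    rfl
  have hf2 : ∀ (m : ℕ) (z : ℕ × (Fin m → ℕ)), f z.1 + sm' f z.2 =
      ((psiS N z.1 + sm' (psiS N) z.2 : ℤ) : ZMod MM) := by
    intro m z
    simp only [hf]
    rw [lv_cast_sm]
    push_cast
    rfl
  have hr1 : ((r - 1 : ℕ) : ℤ) + 3 = ((r + 2 : ℕ) : ℤ) := by omega
  have hA := fourier_two f (Tall3 κ (β / 2) M) (PP β κ) (Q3 κ) (X3 κ (β / 2))
    (fun q => Cq κ M q.2.2) w C hC hw hw0 hw2 hcut r hr B ?_ ?_ ?_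
  · -- Hoelder
    have hB := fourier_core f (Tall3 κ (β / 2) M) (PP β κ) w hw0 i r K hr hK
      (4 * #(Q3 κ) * B) J₁ J₂ hA (by rw [hJs i (by omega)]; exact hJ₁)
      (by rw [hJs K (by omega)]; exact hJ₂) T₀ hT₀ (fun t ht => hw1 _ (hT₁ t ht))
      ((u : ℤ) : ZMod MM)
    refine le_trans ?_ hB
    exact_mod_cast card_le_card (by
      intro z hz
      rw [mem_filter] at hz ⊢
      refine ⟨hz.1, ?_⟩
      rw [hf2, hz.2])
  · intro q hq j
    refine le_trans ?_ (h1 q hq j)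
    rw [lv_en _ _ _ (hf4 (r - 1)) ((r + 2 : ℕ) * V) ?_ (hval _ (by omega))]
    · refine Nat.cast_le.2 (en_mono ?_ _)
      exact product_subset_product hfil (subset_refl _)
    · intro z hz
      rw [mem_product, mem_product, mem_product, mem_filter] at hz
      obtain ⟨hz1, hz2, hz3, hz4⟩ := hz
      have e4 := lv_smS hP hz4
      have e1 := hT _ hz1.1
      have e2 := hX q hq j _ hz2
      have e3 := hX q hq j _ hz3
      have g1 := psiS_nonneg N z.1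
      have g2 := psiS_nonneg N z.2.1
      have g3 := psiS_nonneg N z.2.2.1
      refine ⟨by linarith [e4.1], ?_⟩
      rw [← hr1, add_mul]
      linarith [e4.2]
  · intro q hq
    refine le_trans ?_ (h2 q hq)
    rw [lv_en _ _ _ (hf2 (r + 1)) ((r + 2 : ℕ) * V) ?_ (hval _ (by omega))]
    intro z hz
    rw [mem_product] at hz
    have e4 := lv_smS hP hz.2
    have e1 := hZ q hq _ hz.1
    have g1 := psiS_nonneg N z.1
    refine ⟨by linarith [e4.1], ?_⟩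
    have e5 := e4.2
    push_cast at e5 ⊢
    linarith
  · intro q hq j
    refine le_trans ?_ (h3 q hq j)
    rw [lv_en _ _ _ (hf4 r) ((r + 3 : ℕ) * V) ?_ (hval _ (by omega))]
    intro z hz
    rw [mem_product, mem_product, mem_product] at hz
    obtain ⟨hz1, hz2, hz3, hz4⟩ := hz
    have e4 := lv_smS hP hz4
    have e1 := hZ q hq _ hz1
    have e2 := hX q hq j _ hz2
    have e3 := hX q hq j _ hz3
    have g1 := psiS_nonneg N z.1
    have g2 := psiS_nonneg N z.2.1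
    have g3 := psiS_nonneg N z.2.2.1
    refine ⟨by linarith [e4.1], ?_⟩
    have e5 := e4.2
    push_cast at e5 ⊢
    linarith

end Pool.Agent.Helper19.P3
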