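import Mathlib
import Pool.Agent.Helper19.P3.LevelC
import Pool.Agent.Helper80.P3.Window
import Pool.Agent.Helper47.P4.Count
import Pool.Agent.Helper47.P4.TZero
import Pool.Agent.Helper77.P3.Mom

/-!
# PS4: the bound for one level
-/

set_option autoImplicit false

namespace Pool.Agent.Helper19.P3

open Finset Pool.Agent.Helper6.Lehmer Pool.Agent.Helper6.LehmerCount Pool.Agent.Helper58.LT

theorem lb_X3 {κ hb : ℕ} {q : ℕ × ℕ × ℕ} (j : Fin 3) : X3 κ hb q j ⊆ Sm κ (hb + κ) := by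
  fin_cases j <;> exact Xq_sub

theorem lb_Q3 {κ : ℕ} (hκ : 1 ≤ κ) : (4 : ℝ) * (#(Q3 κ) : ℝ) ≤ 2 ^ (8 * κ) := by
  have h1 : #(Q3 κ) = (2 ^ κ + 1) * ((2 ^ κ + 1) * (2 ^ κ + 1)) := by
    unfold Q3
    rw [card_product, card_product, card_range]
  have h2 : 1 ≤ 2 ^ κ := Nat.one_le_two_pow
  have h3 : 2 ^ κ + 1 ≤ 2 ^ (2 * κ) := by
    have h4 : 2 ≤ 2 ^ κ := by
      calc 2 = 2 ^ 1 := by norm_num
        _ ≤ 2 ^ κ := Nat.pow_le_pow_right (by norm_num) hκ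
    have h5 : 2 ^ (2 * κ) = 2 ^ κ * 2 ^ κ := by rw [two_mul, pow_add]
    rw [h5]
    nlinarith
  have h6 : 4 * #(Q3 κ) ≤ 2 ^ (8 * κ) := by
    rw [h1]
    calc 4 * ((2 ^ κ + 1) * ((2 ^ κ + 1) * (2 ^ κ + 1)))
        ≤ 2 ^ (2 * κ) * (2 ^ (2 * κ) * (2 ^ (2 * κ) * 2 ^ (2 * κ))) := by
          refine Nat.mul_le_mul ?_ (Nat.mul_le_mul h3 (Nat.mul_le_mul h3 h3))
          calc 4 = 2 ^ 2 := by norm_num
            _ ≤ 2 ^ (2 * κ) := Nat.pow_le_pow_right (by norm_num) (by omega)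
      _ = 2 ^ (8 * κ) := by
          rw [← pow_add, ← pow_add, ← pow_add]
          congr 1
          ring
  exact_mod_cast h6

/-- the exponents -/
theorem lb_exp {i K : ℕ} (hK : i < K) (β κ : ℕ) (hκ : 1 ≤ κ) (C₆ C₇ C₈ : ℕ) {BB J₁ J₂ : ℝ}
    (hB0 : 0 ≤ BB) (hJ10 : 0 ≤ J₁) (hJ20 : 0 ≤ J₂)
    (hB : BB ≤ 2 ^ (i * β + (β + 1) / 2 + (C₈ + 8) * κ))
    (hJ₁ : J₁ ≤ 2 ^ (i * β + C₆ * κ))
    (hJ₂ : J₂ ≤ (2 : ℝ) ^ ((2 * (K : ℝ) + 3 / 4 - 2 * i) * β + C₇ * κ)) :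
    BB ^ ((1 : ℝ) / 2) * J₁ ^ ((1 : ℝ) / 2 * (1 - 1 / (4 * ((K : ℝ) - i)))) *
        J₂ ^ ((1 : ℝ) / 2 * (1 / (4 * ((K : ℝ) - i)))) ≤
      (2 : ℝ) ^ (((i : ℝ) + 1 / 2 - 1 / (8 * ((K : ℝ) - i)) * (i - 3 / 4)) * β +
        ((C₆ + C₇ + C₈ + 9 : ℕ) : ℝ) * κ) := by
  have hKi : (1 : ℝ) ≤ (K : ℝ) - i := by
    have : (i : ℝ) + 1 ≤ K := by exact_mod_cast hK
    linarith
  set D : ℝ := (K : ℝ) - i with hD
  have hD0 : 0 < D := by linarith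
  set a : ℝ := 1 / (4 * D) with ha
  have ha0 : 0 < a := by positivity
  have ha1 : a ≤ 1 / 4 := by
    rw [ha, div_le_div_iff₀ (by positivity) (by norm_num)]
    linarith
  have haD : a * D = 1 / 4 := by
    rw [ha]
    field_simp
  have h8 : 1 / (8 * D) = a / 2 := by
    rw [ha]
    field_simp
    norm_num
  have hκr : (1 : ℝ) ≤ κ := by exact_mod_cast hκ
  have e1 : BB ^ ((1 : ℝ) / 2) ≤ (2 : ℝ) ^ ((((i : ℝ) + 1 / 2) * β + 1 / 2 + (C₈ + 8) * κ) *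
      (1 / 2)) := by
    rw [Real.rpow_mul (by norm_num)]
    refine Real.rpow_le_rpow hB0 (hB.trans ?_) (by norm_num)
    rw [← Real.rpow_natCast]
    refine Real.rpow_le_rpow_of_exponent_le (by norm_num) ?_
    have hdiv : (((β + 1) / 2 : ℕ) : ℝ) ≤ ((β : ℝ) + 1) / 2 := by
      have := @Nat.cast_div_le ℝ _ _ _ (β + 1) 2
      push_cast at this
      exact this
    push_cast
    linarith
  have e2 : J₁ ^ ((1 : ℝ) / 2 * (1 - a)) ≤ (2 : ℝ) ^ (((i : ℝ) * β + C₆ * κ) *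
      (1 / 2 * (1 - a))) := by
    rw [Real.rpow_mul (by norm_num) _ (1 / 2 * (1 - a))]
    refine Real.rpow_le_rpow hJ10 (hJ₁.trans ?_) (by linarith)
    rw [← Real.rpow_natCast]
    push_cast
    exact le_refl _
  have e3 : J₂ ^ ((1 : ℝ) / 2 * a) ≤ (2 : ℝ) ^ (((2 * (K : ℝ) + 3 / 4 - 2 * i) * β + C₇ * κ) *
      (1 / 2 * a)) := by
    rw [Real.rpow_mul (by norm_num) _ (1 / 2 * a)]
    exact Real.rpow_le_rpow hJ20 hJ₂ (by positivity)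
  have p1 : (0 : ℝ) ≤ BB ^ ((1 : ℝ) / 2) := Real.rpow_nonneg hB0 _
  have p2 : (0 : ℝ) ≤ J₁ ^ ((1 : ℝ) / 2 * (1 - a)) := Real.rpow_nonneg hJ10 _
  have p3 : (0 : ℝ) ≤ J₂ ^ ((1 : ℝ) / 2 * a) := Real.rpow_nonneg hJ20 _
  refine (mul_le_mul (mul_le_mul e1 e2 p2 (by positivity)) e3 p3 (by positivity)).trans ?_
  rw [← Real.rpow_add (by norm_num), ← Real.rpow_add (by norm_num)]
  refine Real.rpow_le_rpow_of_exponent_le (by norm_num) ?_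
  rw [h8]
  have hKe : (K : ℝ) = D + i := by rw [hD]; ring
  have hb0 : (0 : ℝ) ≤ β := Nat.cast_nonneg β
  have q1 : ((2 * (K : ℝ) + 3 / 4 - 2 * i) * β + C₇ * κ) * (1 / 2 * a) =
      (a * D) * β + a / 2 * (3 / 4) * β + a / 2 * (C₇ * κ) := by
    rw [hKe]; ring
  rw [q1, haD]
  have c6 : (0 : ℝ) ≤ C₆ * κ := by positivity
  have c7 : (0 : ℝ) ≤ C₇ * κ := by positivity
  have c8 : (0 : ℝ) ≤ C₈ * κ := by positivity
  have m6 : C₆ * κ * (1 / 2 * (1 - a)) ≤ C₆ * (κ : ℝ) := by nlinarith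
  have m7 : a / 2 * (C₇ * κ) ≤ C₇ * (κ : ℝ) := by nlinarith
  push_cast
  nlinarith

/-- the bound for one level -/
theorem level_bound (i r C₁ : ℕ) (hr : 2 ≤ r) (hri : r + 1 ≤ i) :
    ∃ C K : ℕ, i < K ∧ ∀ β κ : ℕ, Ok i β κ → C * κ ≤ β → ∀ (a₀ : ℤ) (h : ℕ), 1 ≤ h →
      h ≤ 2 ^ (2 * i * β + C₁ * κ) → ∀ u : ℤ,
      (#{z ∈ ((Sm κ ((i + 1 - r) * β + C₁ * κ)).filter fun t =>
        2 ^ (3 * (β / 2) + 2 * κ) ≤ t ∧
        |psiS (2 ^ ((2 * i + 1) * β)) t - a₀| ≤ h) ×ˢ tup (PP β κ) (i + r) |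
        psiS (2 ^ ((2 * i + 1) * β)) z.1 + sm' (psiS (2 ^ ((2 * i + 1) * β))) z.2 = u} : ℝ) ≤
      (2 : ℝ) ^ (((i : ℝ) + 1 / 2 - 1 / (8 * ((K : ℝ) - i)) * (i - 3 / 4)) * β + C * κ) := by
  obtain ⟨s, hs⟩ : ∃ s, i + 1 - r = s := ⟨_, rfl⟩
  have hs2 : 2 ≤ s := by omega
  have hsr : s + r = i + 1 := by omega
  obtain ⟨C₂, H2⟩ := window_count i s (C₁ + 5) (by omega) (by omega)
  obtain ⟨C₃, H3⟩ := T1_count i r s (C₁ + C₂ + 5) hsr hr hs2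
  obtain ⟨C₄, H4⟩ := T0_count i r (2 * C₁ + 8)
  obtain ⟨C₅, H5⟩ := T0_count' i (r + 1) (2 * C₁ + 4)
  obtain ⟨C₆, H6⟩ := J_sidon i (by omega)
  obtain ⟨K, hK, C₇, H7⟩ := J_high i (by omega)
  refine ⟨C₁ + C₂ + C₃ + C₄ + C₅ + C₆ + C₇ + 20, K, hK, ?_⟩
  intro β κ hOk hCβ a₀ h hh hle u
  have hκ := hOk.one
  have hcβ : ∀ C' : ℕ, C' ≤ C₁ + C₂ + C₃ + C₄ + C₅ + C₆ + C₇ + 20 → C' * κ ≤ β := fun C' hC' =>
    (Nat.mul_le_mul_right κ hC').trans hCβ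
  have hβ20 : 20 ≤ β := by
    have := hcβ 20 (by omega)
    omega
  have h7β : C₇ ≤ β := by
    have := hcβ C₇ (by omega)
    nlinarith
  rw [hs]
  set N : ℕ := 2 ^ ((2 * i + 1) * β) with hN
  obtain ⟨M, hM⟩ : ∃ M, M = (s - 2) * β + β / 2 + (C₁ + 2) * κ := ⟨_, rfl⟩
  have hsβ : (s - 2) * β + 2 * β = s * β := by
    rw [← add_mul]
    congr 1
    omega
  have hs3 : s * β ≤ (i + 3) * β := Nat.mul_le_mul_right β (by omega)
  have hi3 : (i + 3) * β = (i - 1 - s) * β + (s + 4) * β := by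
    rw [← add_mul]
    congr 1
    omega
  have hs4 : (s + 4) * β = s * β + 4 * β := by ring
  have hCC : (C₁ + 5) * κ ≤ β := hcβ _ (by omega)
  have hC2 : (C₁ + 2) * κ ≤ β := hcβ _ (by omega)
  have hC55 : (C₁ + 5) * κ = (C₁ + 2) * κ + 3 * κ := by ring
  have hC52 : (C₁ + 2) * κ = C₁ * κ + 2 * κ := by ring
  have hβ2 : 2 * (β / 2) ≤ β := Nat.mul_div_le β 2
  have hβ2' : β ≤ 2 * (β / 2) + 1 := by omega
  -- sizes
  have hTsub : Tall3 κ (β / 2) M ⊆ Sm κ (s * β + (C₁ + 5) * κ) := by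
    refine Tall3_sub.trans (lv_Sm_mono ?_)
    rw [hM]
    omega
  have hPV : ∀ p ∈ PP β κ, psiS N p ≤ (N * ((i + 3) * β) : ℕ) := by
    intro p hp
    obtain ⟨h0, h1⟩ := lv_PP_le hp
    refine (lv_val h0 h1 ?_).2
    exact Nat.mul_le_mul_left _ (by omega)
  have hTV : ∀ t ∈ Tall3 κ (β / 2) M, psiS N t ≤ (N * ((i + 3) * β) : ℕ) := by
    intro t ht
    obtain ⟨h0, h1⟩ := lv_Sm_le (hTsub ht)
    refine (lv_val h0 h1 ?_).2
    exact Nat.mul_le_mul_left _ (by omega)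
  have hXV : ∀ q ∈ Q3 κ, ∀ j, ∀ x ∈ X3 κ (β / 2) q j, psiS N x ≤ (N * ((i + 3) * β) : ℕ) := by
    intro q _ j x hx
    obtain ⟨h0, h1⟩ := lv_Sm_le (lb_X3 j hx)
    refine (lv_val h0 h1 ?_).2
    exact Nat.mul_le_mul_left _ (by omega)
  have hZV : ∀ q ∈ Q3 κ, ∀ c ∈ Cq κ M q.2.2, psiS N c ≤ (N * ((i + 3) * β) : ℕ) := by
    intro q _ x hx
    obtain ⟨h0, h1⟩ := lv_Sm_le (Cq_sub hx)
    refine (lv_val h0 h1 ?_).2
    refine Nat.mul_le_mul_left _ ?_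
    rw [hM]
    omega
  -- the bound B
  set B : ℝ := (2 : ℝ) ^ (i * β + (β + 1) / 2 + (C₃ + C₄ + C₅) * κ) with hB
  have hBle : ∀ (n C' : ℕ), C' ≤ C₃ + C₄ + C₅ → n ≤ 2 ^ (i * β + (β + 1) / 2 + C' * κ) →
      (n : ℝ) ≤ B := by
    intro n C' hC' hn
    have h1 : n ≤ 2 ^ (i * β + (β + 1) / 2 + (C₃ + C₄ + C₅) * κ) := by
      refine hn.trans (Nat.pow_le_pow_right (by norm_num) ?_)
      have := Nat.mul_le_mul_right κ hC'
      omega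
    rw [hB]
    exact_mod_cast h1
  have hwin : ∀ t ∈ (Tall3 κ (β / 2) M).filter fun t => |psiS N t - a₀| < 2 * h,
      |psiS N t - a₀| < 2 * h := fun t ht => (mem_filter.1 ht).2
  have hΛc := H2 β κ hOk (hcβ _ (by omega)) a₀ h
    (hle.trans (Nat.pow_le_pow_right (by norm_num) (by omega)))
    ((Tall3 κ (β / 2) M).filter fun t => |psiS N t - a₀| < 2 * h)
    ((filter_subset _ _).trans hTsub) hwin
  have h2h : (2 : ℤ) * h ≤ 2 ^ (2 * i * β + (C₁ + C₂ + 5) * κ) := by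
    have h1 : 2 * h ≤ 2 ^ (2 * i * β + (C₁ + C₂ + 5) * κ) := by
      calc 2 * h ≤ 2 * 2 ^ (2 * i * β + C₁ * κ) := Nat.mul_le_mul_left 2 hle
        _ = 2 ^ (2 * i * β + C₁ * κ + 1) := by rw [pow_succ]; ring
        _ ≤ _ := Nat.pow_le_pow_right (by norm_num) (by
            have : (C₁ + C₂ + 5) * κ = C₁ * κ + C₂ * κ + 5 * κ := by ring
            omega)
    exact_mod_cast h1
  have hmain := level_core N (N * ((i + 3) * β)) β κ M i r K (by omega) (by omega) hK a₀ h hh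
    hTV hXV hZV hPV B (2 ^ (i * β + C₆ * κ))
    ((2 : ℝ) ^ ((2 * (K : ℝ) + 3 / 4 - 2 * i) * β + C₇ * κ))
    ?_ ?_ ?_ ?_ ?_
    ((Sm κ (s * β + C₁ * κ)).filter fun t =>
        2 ^ (3 * (β / 2) + 2 * κ) ≤ t ∧ |psiS N t - a₀| ≤ h) ?_ ?_ u
  · refine hmain.trans ?_
    have hQB : (4 : ℝ) * #(Q3 κ) * B ≤
        2 ^ (i * β + (β + 1) / 2 + (C₃ + C₄ + C₅ + 8) * κ) := by
      calc (4 : ℝ) * #(Q3 κ) * B ≤ 2 ^ (8 * κ) * B :=
            mul_le_mul_of_nonneg_right (lb_Q3 hκ) (by positivity)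
        _ = 2 ^ (i * β + (β + 1) / 2 + (C₃ + C₄ + C₅ + 8) * κ) := by
            rw [hB, ← pow_add]
            congr 1
            ring
    refine (lb_exp hK β κ hκ C₆ C₇ (C₃ + C₄ + C₅) (by positivity) (by positivity)
      (by positivity) hQB (le_refl _) (le_refl _)).trans ?_
    refine Real.rpow_le_rpow_of_exponent_le (by norm_num) ?_
    have hκ0 : (0 : ℝ) ≤ κ := Nat.cast_nonneg κ
    have hcc : ((C₆ + C₇ + (C₃ + C₄ + C₅) + 9 : ℕ) : ℝ) * κ ≤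
        ((C₁ + C₂ + C₃ + C₄ + C₅ + C₆ + C₇ + 20 : ℕ) : ℝ) * κ :=
      mul_le_mul_of_nonneg_right (by exact_mod_cast (by omega)) hκ0
    linarith
  · -- T1
    intro q _ j
    refine hBle _ C₃ (by omega) ?_
    refine H3 β κ hOk (hcβ _ (by omega)) _ _ ((filter_subset _ _).trans (hTsub.trans
      (lv_Sm_mono ?_))) ((lb_X3 j).trans (lv_Sm_mono ?_)) (hΛc.trans
      (Nat.pow_le_pow_right (by norm_num) ?_)) a₀ ?_
    · have := Nat.mul_le_mul_right κ (show C₁ + 5 ≤ C₁ + C₂ + 5 by omega)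
      omega
    · have := Nat.mul_le_mul_right κ (show 1 ≤ C₁ + C₂ + 5 by omega)
      omega
    · have := Nat.mul_le_mul_right κ (show C₂ ≤ C₁ + C₂ + 5 by omega)
      omega
    · intro t ht
      exact ((hwin t ht).le).trans h2h
  · -- T0'
    intro q _
    refine hBle _ C₅ (by omega) ?_
    refine H5 β κ hOk (hcβ _ (by omega)) M _ Cq_sub ?_
    have h1 : M + (r + 1) * β = i * β + β / 2 + (C₁ + 2) * κ := by
      rw [hM]
      have : (s - 2) * β + (r + 1) * β = i * β := by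
        rw [← add_mul]
        congr 1
        omega
      omega
    rw [h1]
    have h2 : (2 * i + 1) * β = 2 * (i * β) + β := by ring
    have h3 : (2 * C₁ + 4) * κ = 2 * ((C₁ + 2) * κ) := by ring
    omega
  · -- T0
    intro q _ j
    refine hBle _ C₄ (by omega) ?_
    refine H4 β κ hOk (hcβ _ (by omega)) M (β / 2 + κ) _ _ Cq_sub (lb_X3 j) ?_
    have h1 : M + r * β = (i - 1) * β + β / 2 + (C₁ + 2) * κ := by
      rw [hM]
      have : (s - 2) * β + r * β = (i - 1) * β := by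
        rw [← add_mul]
        congr 1
        omega
      omega
    have h2 : (2 * i + 1) * β = 2 * ((i - 1) * β) + 3 * β := by
      have : i = (i - 1) + 1 := by omega
      calc (2 * i + 1) * β = (2 * ((i - 1) + 1) + 1) * β := by rw [← this]
        _ = 2 * ((i - 1) * β) + 3 * β := by ring
    have h3 : (2 * C₁ + 8) * κ = 2 * ((C₁ + 2) * κ) + 4 * κ := by ring
    omega
  · exact_mod_cast H6 β κ hOk (hcβ _ (by omega))
  · exact H7 β κ hOk (hcβ _ (by omega)) h7β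
  · -- T₀ ⊆ Tall3
    intro t ht
    rw [mem_filter] at ht
    refine mem_Tall3 (by omega) (lv_Sm_mono ?_ ht.1) ht.2.1
    rw [hM]
    omega
  · intro t ht
    exact (mem_filter.1 ht).2.2

end Pool.Agent.Helper19.P3
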