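import Mathlib
import Pool.Agent.Helper19.P3.LevelB
import Pool.Agent.Helper81.P3.Count
import Pool.Agent.Helper14.P3.OkOf

/-!
# PS4: the class theorem
-/

set_option autoImplicit false

namespace Pool.Agent.Helper19.P3

open Finset Pool.Agent.Helper6.Lehmer Pool.Agent.Helper6.LehmerCount Pool.Agent.Helper58.LT
open Pool.Agent.Helper58.PS Pool.Agent.Helper6.PW

theorem classE (i r : ℕ) (hr : 2 ≤ r) (hri : r + 1 ≤ i) :
    ∃ τ₀ : ℝ, 0 < τ₀ ∧ τ₀ ≤ 1 / (2 * (i : ℝ) + 2) ∧ ∃ δ : ℝ, 0 < δ ∧ ∃ l₀ : ℕ,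
      ∀ (l k κ β : ℕ) (S : Finset ℕ),
      l₀ ≤ l → τ₀ / 2 * l ≤ κ → (κ : ℝ) ≤ τ₀ * l → |(l : ℝ) - (2 * i + 1) * β| ≤ κ →
      (∀ n ∈ S, Idx n k ∧ n ≤ 2 ^ l ∧ 2 ^ (l - 1) < n ∧ DataE n κ i r β) →
      (#S : ℝ) ≤ (2 : ℝ) ^ ((1 / 2 - δ) * (l : ℝ)) := by
  obtain ⟨CE, HE⟩ := count_E i r hr hri
  obtain ⟨CL, K, hK, HL⟩ := level_bound i r CE hr hri
  have hi3 : (3 : ℝ) ≤ i := by
    have : 3 ≤ i := by omega
    exact_mod_cast this
  have hKi : (1 : ℝ) ≤ (K : ℝ) - i := by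
    have : (i : ℝ) + 1 ≤ K := by exact_mod_cast hK
    linarith
  set g₀ : ℝ := 1 / (8 * ((K : ℝ) - i)) * (i - 3 / 4) with hg₀
  have h8 : 1 / (8 * ((K : ℝ) - i)) ≤ 1 / 8 := by
    rw [div_le_div_iff₀ (by positivity) (by norm_num)]
    linarith
  have h80 : 0 < 1 / (8 * ((K : ℝ) - i)) := by positivity
  have hg₀0 : 0 < g₀ := mul_pos h80 (by linarith)
  have hg₀i : g₀ ≤ i := by
    rw [hg₀]
    have h1 : 1 / (8 * ((K : ℝ) - i)) * (i - 3 / 4) ≤ 1 / 8 * (i - 3 / 4) :=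
      mul_le_mul_of_nonneg_right h8 (by linarith)
    linarith
  set g : ℝ := g₀ / (2 * i + 1) with hg
  have h2i : (0 : ℝ) < 2 * i + 1 := by linarith
  have hg0 : 0 < g := div_pos hg₀0 h2i
  have hgg : g * (2 * i + 1) = g₀ := by
    rw [hg]
    field_simp
  set D : ℝ := (CE : ℝ) + CL + 1 with hD
  have hD1 : 1 ≤ D := by
    rw [hD]
    have h1 : (0 : ℝ) ≤ CE := Nat.cast_nonneg _
    have h2 : (0 : ℝ) ≤ CL := Nat.cast_nonneg _
    linarith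
  have hD0 : 0 < D := by linarith
  set τ₀ : ℝ := min (min (g / (2 * D)) (1 / (2 * (2 * i + 1) * D))) (1 / (2 * (i : ℝ) + 2))
    with hτ₀
  have t1 : τ₀ ≤ g / (2 * D) := (min_le_left _ _).trans (min_le_left _ _)
  have t2 : τ₀ ≤ 1 / (2 * (2 * i + 1) * D) := (min_le_left _ _).trans (min_le_right _ _)
  have t3 : τ₀ ≤ 1 / (2 * (i : ℝ) + 2) := min_le_right _ _
  have t0 : 0 < τ₀ := by
    rw [hτ₀]
    refine lt_min (lt_min ?_ ?_) ?_ <;> positivity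
  have t4 : τ₀ ≤ 1 / 2 := by
    refine t3.trans ?_
    rw [div_le_div_iff₀ (by positivity) (by norm_num)]
    linarith
  have u1 : τ₀ * D ≤ g / 2 := by
    calc τ₀ * D ≤ g / (2 * D) * D := mul_le_mul_of_nonneg_right t1 hD0.le
      _ = g / 2 := by field_simp
  have u2 : τ₀ * D * (2 * i + 1) ≤ 1 / 2 := by
    calc τ₀ * D * (2 * i + 1) ≤ 1 / (2 * (2 * i + 1) * D) * D * (2 * i + 1) := by
          refine mul_le_mul_of_nonneg_right (mul_le_mul_of_nonneg_right t2 hD0.le) h2i.le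
      _ = 1 / 2 := by field_simp
  obtain ⟨l₀, hl₀⟩ := ok_of i (τ₀ / 2) (by linarith)
  refine ⟨τ₀, t0, t3, g / 2, by linarith, l₀, ?_⟩
  intro l k κ β S hl hκ1 hκ2 hlβ hS
  have hl0 : (0 : ℝ) ≤ l := Nat.cast_nonneg l
  have hκl : (κ : ℝ) ≤ 1 / 2 * l := hκ2.trans (mul_le_mul_of_nonneg_right t4 hl0)
  obtain ⟨hl1, hl2⟩ := abs_le.1 hlβ
  have hOk : Ok i β κ := hl₀ l κ β hl hκ1 (by linarith)
  have hCβ : ∀ C' : ℕ, (C' : ℝ) ≤ D → C' * κ ≤ β := by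
    intro C' hC'
    have h1 : (C' : ℝ) * κ ≤ D * (τ₀ * l) :=
      mul_le_mul hC' hκ2 (Nat.cast_nonneg _) hD0.le
    have h2 : (2 * (i : ℝ) + 1) * (C' * κ) ≤ (2 * i + 1) * β := by
      calc (2 * (i : ℝ) + 1) * (C' * κ) ≤ (2 * i + 1) * (D * (τ₀ * l)) :=
            mul_le_mul_of_nonneg_left h1 h2i.le
        _ = τ₀ * D * (2 * i + 1) * l := by ring
        _ ≤ 1 / 2 * l := mul_le_mul_of_nonneg_right u2 hl0
        _ ≤ (2 * i + 1) * β := by linarith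
    have h3 := le_of_mul_le_mul_left h2 h2i
    exact_mod_cast h3
  obtain ⟨a₀, h, hh, hle, _, hcount⟩ := HE l κ k β S hOk (hCβ CE (by
    rw [hD]
    have h2 : (0 : ℝ) ≤ CL := Nat.cast_nonneg _
    linarith)) hlβ hS
  have hB := hcount _ (HL β κ hOk (hCβ CL (by
    rw [hD]
    have h2 : (0 : ℝ) ≤ CE := Nat.cast_nonneg _
    linarith)) a₀ h hh hle)
  refine hB.trans ?_
  rw [← Real.rpow_natCast, ← Real.rpow_add (by norm_num)]
  refine Real.rpow_le_rpow_of_exponent_le (by norm_num) ?_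
  push_cast
  have hκ0 : (0 : ℝ) ≤ κ := Nat.cast_nonneg κ
  have e1 : ((i : ℝ) + 1 / 2 - g₀) * β = (1 / 2 - g) * ((2 * i + 1) * β) := by
    rw [← hgg]
    ring
  have hg2 : 0 ≤ 1 / 2 - g := by
    have h1 : g * (2 * i + 1) ≤ i := by rw [hgg]; exact hg₀i
    by_contra hcon
    have h2 : 1 / 2 * (2 * (i : ℝ) + 1) < g * (2 * i + 1) :=
      mul_lt_mul_of_pos_right (by linarith) h2i
    linarith
  have e2 : (1 / 2 - g) * ((2 * i + 1) * β) ≤ (1 / 2 - g) * (l + κ) :=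
    mul_le_mul_of_nonneg_left (by linarith) hg2
  have e3 : (1 / 2 - g) * κ ≤ 1 * κ := mul_le_mul_of_nonneg_right (by linarith) hκ0
  have e4 : D * κ ≤ g / 2 * l := by
    calc D * κ ≤ D * (τ₀ * l) := mul_le_mul_of_nonneg_left hκ2 hD0.le
      _ = τ₀ * D * l := by ring
      _ ≤ g / 2 * l := mul_le_mul_of_nonneg_right u1 hl0
  have e5 : D * (κ : ℝ) = CE * κ + CL * κ + κ := by
    rw [hD]
    ring
  have e6 : (1 / 2 - g) * ((l : ℝ) + κ) = (1 / 2 - g) * l + (1 / 2 - g) * κ := by ring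
  have e7 : (1 / 2 - g / 2) * (l : ℝ) = (1 / 2 - g) * l + g / 2 * l := by ring
  rw [e1, e7]
  linarith

end Pool.Agent.Helper19.P3
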